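import Pool.Agent.Helper94.UF.Noise
import Pool.Agent.Helper94.SR.Inh
import Pool.Agent.Helper94.SR.Emb

/-! Upgrading the smoothness from `C^1` to `C^k`: the statements of the rows. -/

open scoped ZeroAtInfty ContDiff NNReal
open Set Filter Topology MeasureTheory

namespace Pool.Agent.Helper94.UP

open Pool.Agent.Helper94.UF Pool.Agent.Helper94.SR

/-- Shrinking the coordinates. -/
noncomputable def shr {Γ : Type*} (t : ℝ) (φ : Γ → ℝ) : Γ → ℝ := fun γ => φ γ - clip t (φ γ)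

/-- The candidate values of the extension. -/
def hvals {k : WithTop ℕ∞} {X : Type*} [NormedAddCommGroup X] [NormedSpace ℝ X] {Γ : Type*}
    (K : EK k X Γ) (f : X → ℝ) (R t : ℝ) (φ : Γ → ℝ) : Set ℝ :=
  {s | ∃ (x : X) (r : ℝ), 0 ≤ r ∧ (∀ γ, |shr t φ γ - K.Φ x γ| ≤ r) ∧ s = f x + R * r}

/-- The extension of `f` to the maps in `c_0(Γ)`. -/
noncomputable def Hf {k : WithTop ℕ∞} {X : Type*} [NormedAddCommGroup X] [NormedSpace ℝ X]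
    {Γ : Type*} (K : EK k X Γ) (f : X → ℝ) (R δ : ℝ) (φ : Γ → ℝ) : ℝ :=
  min 1 (sInf (hvals K f R (δ * Real.exp (-2)) φ))

/-- Row HT: `Hf` is tame and `R`-Lipschitz. For `φ` in `c_0` the set `hvals` is nonempty
(`x = 0`: `shr φ - Φ 0` is bounded) and consists of numbers `≥ 0`. Lipschitz: `shr` is
1-Lipschitz, so a pair `(x, r)` for `φ'` gives the pair `(x, r + τ)` for `φ`. Locality: `shr t φ`
vanishes where `|φ γ| ≤ t`, so both `shr` agree. -/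
def ST_HT.{u, v} : Prop := ∀ {k : WithTop ℕ∞} {X : Type u} [NormedAddCommGroup X]
  [NormedSpace ℝ X] {Γ : Type v} (K : EK k X Γ) (f : X → ℝ) (R δ : ℝ), 0 ≤ R → 0 < δ →
  (∀ x, 0 ≤ f x) → Tame δ (Hf K f R δ) ∧
  ∀ φ φ', IsC0 φ → IsC0 φ' → ∀ τ, 0 ≤ τ → (∀ γ, |φ γ - φ' γ| ≤ τ) →
    |Hf K f R δ φ - Hf K f R δ φ'| ≤ R * τ

/-- Row HC: `Hf (Φ x)` is close to `f x`. Upper bound: the pair `(x, t)`, `t = δ e^{-2}`. Lower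
bound: a pair `(y, r)` has `|Φ x γ - Φ y γ| ≤ t + r`, so `c ‖x - y‖ ≤ t + r` and
`f y + (Λ/c) r ≥ f x - Λ ‖x - y‖ + (Λ/c) r ≥ f x - (Λ/c) t`. -/
def ST_HC.{u, v} : Prop := ∀ {k : WithTop ℕ∞} {X : Type u} [NormedAddCommGroup X]
  [NormedSpace ℝ X] {Γ : Type v} (K : EK k X Γ) (f : X → ℝ) (Λ δ : ℝ), 0 ≤ Λ → 0 < δ →
  (∀ x, 0 ≤ f x ∧ f x ≤ 1) → (∀ x y, |f x - f y| ≤ Λ * ‖x - y‖) → ∀ x,
  |Hf K f (Λ / K.c) δ (K.Φ x) - f x| ≤ Λ / K.c * (δ * Real.exp (-2))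

/-- Row SL: `sm` of a tame `R`-Lipschitz function is Lipschitz and close. Use `sm_eq` with
`G = Gx x ∪ Gx y` for both, `Tame.integrable`, and `ph_sub_le`; the measure `nu` is a probability. -/
def ST_SL.{u, v} : Prop := ∀ {k : WithTop ℕ∞} {X : Type u} [NormedAddCommGroup X]
  [NormedSpace ℝ X] {Γ : Type v} (K : EK k X Γ) (q : (Γ → ℝ) → ℝ) (R δ : ℝ) (hδ : 0 < δ),
  0 ≤ R → Tame δ q → (∀ φ φ', IsC0 φ → IsC0 φ' → ∀ τ, 0 ≤ τ → (∀ γ, |φ γ - φ' γ| ≤ τ) →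
    |q φ - q φ'| ≤ R * τ) →
  (∀ x y, |sm K hδ q x - sm K hδ q y| ≤ R * (K.L * ‖x - y‖)) ∧
  ∀ x, |sm K hδ q x - q (K.Φ x)| ≤ R * (δ / 16)

/-- Row A1 (from HT, HC, SL): smooth approximation with a bad constant. `D = L / c`,
`δ` small. -/
def ST_A1.{u, v} : Prop := ∀ {k : WithTop ℕ∞} {X : Type u} [NormedAddCommGroup X]
  [NormedSpace ℝ X] {Γ : Type v}, k ≤ ∞ → EK k X Γ → ∃ D : ℝ, 0 < D ∧
  ∀ (f : X → ℝ) (Λ : ℝ), 0 ≤ Λ → (∀ x, 0 ≤ f x ∧ f x ≤ 1) →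
    (∀ x y, |f x - f y| ≤ Λ * ‖x - y‖) → ∀ ε : ℝ, 0 < ε → ∃ h : X → ℝ, ContDiff ℝ k h ∧
    (∀ x y, |h x - h y| ≤ D * Λ * ‖x - y‖) ∧ ∀ x, |h x - f x| ≤ ε

/-- Row SM: `Real.smoothTransition` is Lipschitz (its derivative is continuous and vanishes off
`[0, 1]`). -/
def ST_SM : Prop := ∃ B : ℝ, 0 ≤ B ∧ ∀ s t : ℝ,
  |Real.smoothTransition s - Real.smoothTransition t| ≤ B * |s - t|

/-- The conclusion of A1 for the space `X`. -/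
def App (k : WithTop ℕ∞) (X : Type*) [NormedAddCommGroup X] [NormedSpace ℝ X] (D : ℝ) : Prop :=
  ∀ (f : X → ℝ) (Λ : ℝ), 0 ≤ Λ → (∀ x, 0 ≤ f x ∧ f x ≤ 1) →
    (∀ x y, |f x - f y| ≤ Λ * ‖x - y‖) → ∀ ε : ℝ, 0 < ε → ∃ h : X → ℝ, ContDiff ℝ k h ∧
    (∀ x y, |h x - h y| ≤ D * Λ * ‖x - y‖) ∧ ∀ x, |h x - f x| ≤ ε

/-- Row A2 (from SM): bumps. `f x = min 1 (‖x - c‖ / r)`, `h` with error `1/32`; on the ball of
radius `r/2` `h ≤ 17/32`, off the ball of radius `3r/4` `h ≥ 23/32`;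
`b = smoothTransition ((23/32 - h x) * (32/6))`. -/
def ST_A2.{u} : Prop := ∀ {k : WithTop ℕ∞} {X : Type u} [NormedAddCommGroup X]
  [NormedSpace ℝ X] {D : ℝ}, k ≤ ∞ → 0 < D → App k X D → ∀ (c : X) (r : ℝ), 0 < r →
  ∃ (b : X → ℝ) (B : ℝ), 0 ≤ B ∧ ContDiff ℝ k b ∧ (∀ x, 0 ≤ b x ∧ b x ≤ 1) ∧
    (∀ x y, |b x - b y| ≤ B * ‖x - y‖) ∧ (∀ x, ‖x - c‖ ≤ r / 2 → b x = 1) ∧
    ∀ x, 3 / 4 * r ≤ ‖x - c‖ → b x = 0

/-- Row ME: bounded McShane extension from a ball. (inf over the ball, then clamp to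
`[-a, a]`; `ρ c = 0` and `a = η r` bound `ρ` on the ball.) -/
def ST_ME.{u} : Prop := ∀ {X : Type u} [NormedAddCommGroup X] [NormedSpace ℝ X] (c : X)
  (r η : ℝ) (ρ : X → ℝ), 0 < r → 0 < η → ρ c = 0 →
  (∀ x y, ‖x - c‖ ≤ r → ‖y - c‖ ≤ r → |ρ x - ρ y| ≤ η * ‖x - y‖) →
  ∃ σ : X → ℝ, (∀ x, ‖x - c‖ ≤ r → σ x = ρ x) ∧ (∀ x, |σ x| ≤ η * r) ∧
    ∀ x y, |σ x - σ y| ≤ η * ‖x - y‖

/-- Row A3 (from ME): local approximation of a `C^1` function. `T = fderiv ℝ g c`, `|T v| ≤ L0 q v`;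
`η` with `D η M ≤ κ`; by strict differentiability `|g x - g y - T (x - y)| ≤ η ‖x - y‖` on the
ball; `σ` from ME for `ρ x = g x - g c - T (x - c)`; `App` for `f = (σ + η r) / (2 η r)`, which is
`1/(2r)`-Lipschitz, with error `e / (2 η r)`; `h x = g c + T (x - c) + 2 η r f̃ x - η r`. -/
def ST_A3.{u} : Prop := ∀ {k : WithTop ℕ∞} {X : Type u} [NormedAddCommGroup X]
  [NormedSpace ℝ X] {D : ℝ}, 0 < D → App k X D → ∀ (q : Seminorm ℝ X) (M : ℝ), 0 < M →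
  (∀ w, q w ≤ M * ‖w‖) → (∀ w, ‖w‖ ≤ M * q w) → ∀ (g : X → ℝ) (L0 κ : ℝ), 0 ≤ L0 → 0 < κ →
  ContDiff ℝ 1 g → (∀ x y, |g x - g y| ≤ L0 * q (x - y)) → ∀ c : X, ∃ r : ℝ, 0 < r ∧
  ∀ e : ℝ, 0 < e → ∃ h : X → ℝ, ContDiff ℝ k h ∧
    (∀ x y, |h x - h y| ≤ (L0 + κ) * q (x - y)) ∧ ∀ x, ‖x - c‖ ≤ r → |h x - g x| ≤ e

/-- The partition functions. -/
noncomputable def psi {X : Type*} (b : ℕ → X → ℝ) (n : ℕ) (x : X) : ℝ :=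
  b n x * ∏ m ∈ Finset.range n, (1 - b m x)

/-- Row PU: properties of `psi`. The third by induction; the Lipschitz bound by induction for the
products (all factors in `[0, 1]`). -/
def ST_PU.{u} : Prop := ∀ {k : WithTop ℕ∞} {X : Type u} [NormedAddCommGroup X]
  [NormedSpace ℝ X] (b : ℕ → X → ℝ) (B : ℕ → ℝ), (∀ n, ContDiff ℝ k (b n)) →
  (∀ n x, 0 ≤ b n x ∧ b n x ≤ 1) → (∀ n, 0 ≤ B n) → (∀ n x y, |b n x - b n y| ≤ B n * ‖x - y‖) →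
  (∀ n, ContDiff ℝ k (psi b n)) ∧ (∀ n x, 0 ≤ psi b n x) ∧
  (∀ N x, ∑ n ∈ Finset.range N, psi b n x = 1 - ∏ m ∈ Finset.range N, (1 - b m x)) ∧
  (∀ n x y, |psi b n x - psi b n y| ≤ (∑ m ∈ Finset.range (n + 1), B m) * ‖x - y‖)

/-- Row LG: locally Lipschitz with a uniform constant implies Lipschitz (compactness of the
segment: Lebesgue number, or a supremum argument). -/
def ST_LG.{u} : Prop := ∀ {X : Type u} [NormedAddCommGroup X] [NormedSpace ℝ X]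
  (q : Seminorm ℝ X) (h : X → ℝ) (C : ℝ), 0 ≤ C →
  (∀ z, ∃ ρ : ℝ, 0 < ρ ∧ ∀ x y, ‖x - z‖ < ρ → ‖y - z‖ < ρ → |h x - h y| ≤ C * q (x - y)) →
  ∀ x y, |h x - h y| ≤ C * q (x - y)

/-- The glued function. -/
noncomputable def Kg {X : Type*} (b : ℕ → X → ℝ) (h : ℕ → X → ℝ) (x : X) : ℝ :=
  ∑' n, psi b n x * h n x

/-- Row GA: the sum is finite where some `b N = 1`. (`psi b n x = 0` for `n > N`.) -/
def ST_GA.{u} : Prop := ∀ {X : Type u} (b : ℕ → X → ℝ) (h : ℕ → X → ℝ) (x : X) (N : ℕ),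
  b N x = 1 → (Kg b h x = ∑ n ∈ Finset.range (N + 1), psi b n x * h n x) ∧
  ∏ m ∈ Finset.range (N + 1), (1 - b m x) = 0

/-- Row GL (from PU, LG, GA): gluing. Near a point `z` with `‖z - c N‖ < r N / 2`, in a
neighbourhood which for every `n ≤ N` lies in the ball of radius `r n` around `c n` or misses the
ball of radius `3/4 r n`: `K x - K y = ∑ ψ_n x (h_n x - h_n y) + ∑ (ψ_n x - ψ_n y) (h_n y - g y)`
(sums over `n ≤ N`, using `∑ (ψ_n x - ψ_n y) = 0`). -/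
def ST_GL.{u} : Prop := ∀ {k : WithTop ℕ∞} {X : Type u} [NormedAddCommGroup X]
  [NormedSpace ℝ X] (q : Seminorm ℝ X) (M : ℝ), 0 < M → (∀ w, q w ≤ M * ‖w‖) →
  (∀ w, ‖w‖ ≤ M * q w) → ∀ (g : X → ℝ) (b : ℕ → X → ℝ) (B : ℕ → ℝ) (c : ℕ → X) (r : ℕ → ℝ)
  (h : ℕ → X → ℝ) (e : ℕ → ℝ) (L1 κ ε : ℝ), 0 ≤ L1 → 0 < κ → 0 < ε →
  (∀ n, ContDiff ℝ k (b n)) → (∀ n x, 0 ≤ b n x ∧ b n x ≤ 1) → (∀ n, 0 ≤ B n) →
  (∀ n x y, |b n x - b n y| ≤ B n * ‖x - y‖) → (∀ n, 0 < r n) →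
  (∀ n x, ‖x - c n‖ ≤ r n / 2 → b n x = 1) → (∀ n x, 3 / 4 * r n ≤ ‖x - c n‖ → b n x = 0) →
  (∀ x, ∃ n, ‖x - c n‖ < r n / 2) → (∀ n, ContDiff ℝ k (h n)) →
  (∀ n x y, |h n x - h n y| ≤ L1 * q (x - y)) → (∀ n x, ‖x - c n‖ ≤ r n → |h n x - g x| ≤ e n) →
  (∀ n, 0 < e n) → (∀ n, e n ≤ ε) →
  (∀ n, e n * (∑ m ∈ Finset.range (n + 1), B m) * M ≤ κ * (1 / 2) ^ (n + 1)) →
  ContDiff ℝ k (Kg b h) ∧ (∀ x y, |Kg b h x - Kg b h y| ≤ (L1 + κ) * q (x - y)) ∧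
  ∀ x, |Kg b h x - g x| ≤ ε

/-- Row A4 (from A2, A3, GL): `X` separable, so countably many of the balls of radius `r/2` cover
(Lindelöf). -/
def ST_A4.{u} : Prop := ∀ {k : WithTop ℕ∞} {X : Type u} [NormedAddCommGroup X]
  [NormedSpace ℝ X] [TopologicalSpace.SeparableSpace X] {D : ℝ}, k ≤ ∞ → 0 < D → App k X D →
  ∀ (q : Seminorm ℝ X) (M : ℝ), 0 < M → (∀ w, q w ≤ M * ‖w‖) → (∀ w, ‖w‖ ≤ M * q w) →
  ∀ (g : X → ℝ) (L0 κ ε : ℝ), 0 ≤ L0 → 0 < κ → 0 < ε → ContDiff ℝ 1 g →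
  (∀ x y, |g x - g y| ≤ L0 * q (x - y)) → ∃ h : X → ℝ, ContDiff ℝ k h ∧
    (∀ x y, |h x - h y| ≤ (L0 + κ) * q (x - y)) ∧ ∀ x, |h x - g x| ≤ ε

/-- Row A5 (from A4): upgrade of `(*^1)`; the constant gets slightly larger. -/
def ST_A5.{u} : Prop := ∀ {k : WithTop ℕ∞} {X : Type u} [NormedAddCommGroup X]
  [NormedSpace ℝ X] [TopologicalSpace.SeparableSpace X] {D : ℝ}, k ≤ ∞ → 0 < D → App k X D →
  StarAll 1 X 1 → ∀ C : ℝ, 1 < C → StarAll k X C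

/-- Row A6: `c_0(ℕ; Z)` has an embedding if `Z` has one: the coordinates
`x ↦ Φ_γ(x_n) - Φ_γ(0)`, index `(n, γ)`, the same constants. -/
def ST_A6.{u, v} : Prop := ∀ {k : WithTop ℕ∞} {Z : Type u} [NormedAddCommGroup Z]
  [NormedSpace ℝ Z] {Γ : Type v}, EK k Z Γ → Nonempty (EK k C₀(ℕ, Z) (ℕ × Γ))

end Pool.Agent.Helper94.UP
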