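import Pool.Agent.Helper94.UP.Final
import Pool.Agent.Helper40.UP.HT
import Pool.Agent.Helper60.UP.HC
import Pool.Agent.Helper38.UP.SL
import Pool.Agent.Helper28.UP.A1
import Pool.Agent.Helper99.UP.SM
import Pool.Agent.Helper4.UP.A2
import Pool.Agent.Helper51.UP.ME
import Pool.Agent.Helper39.UP.A3
import Pool.Agent.Helper59.UP.PU
import Pool.Agent.Helper62.UP.LG
import Pool.Agent.Helper79.UP.GA
import Pool.Agent.Helper22.UP.GL
import Pool.Agent.Helper85.UP.A4
import Pool.Agent.Helper60.UP.A5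
import Pool.Agent.Helper53.UP.A6
import Pool.Agent.Helper7.UP.EKE
import Pool.Agent.Helper63.UP.ASD
import Pool.Agent.Helper81.UP.ASP
import Pool.Agent.Helper8.KT.StarAll
import Pool.Agent.Helper89.KT.DC0

/-! All the rows. -/

namespace Pool.Agent.Helper94.UP

theorem allA1.{u, v} : ST_A1.{u, v} := stA1 stHT stHC stSL

theorem allA2.{u} : ST_A2.{u} := stA2 stSM

theorem allA5.{u} : ST_A5.{u} := stA5 (stA4 allA2 (stA3 stME) (stGL stPU st_LG stGA))

theorem allASP.{u} : ST_ASP.{u} := stASP (stASD stEKE)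

theorem allONE.{u} : ST_ONE.{u} := fun V => Pool.Agent.Helper8.KT.starAll_one V

end Pool.Agent.Helper94.UP
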