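import Pool.Agent.Helper94.UP.Sheet2
import Pool.Agent.Helper94.SR.Inst

/-! Assembly: separable Banach spaces in the class, and the spaces built from them. -/

open scoped ZeroAtInfty ContDiff NNReal
open Set Filter Topology

namespace Pool.Agent.Helper94.UP

open Pool.Agent.Helper94.UF Pool.Agent.Helper94.SR

set_option linter.unusedSectionVars false

/-- The property `(*^1)` with constant `1` for all equivalent norms, for separable duals. -/
def ST_ONE.{u} : Prop := ∀ (V : Type u) [NormedAddCommGroup V] [NormedSpace ℝ V]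
  [TopologicalSpace.SeparableSpace (StrongDual ℝ V)], StarAll 1 V 1

/-- The dual of `V` is separable. -/
theorem dual_sep.{u, v} (hA1 : ST_A1.{u, v}) (hA2 : ST_A2.{u}) (hASP : ST_ASP.{u}) {V : Type u}
    [NormedAddCommGroup V] [NormedSpace ℝ V] [CompleteSpace V] [TopologicalSpace.SeparableSpace V]
    {Γ : Type v} {k : WithTop ℕ∞} (hk : k ≤ ∞) (hk1 : 1 ≤ k) (K : EK k V Γ) :
    TopologicalSpace.SeparableSpace (StrongDual ℝ V) := by
  obtain ⟨D, hD, hApp⟩ := hA1 hk K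
  obtain ⟨b, B, hB, hb, hb01, hbl, hb1, hb0⟩ := hA2 hk hD hApp (0 : V) 1 one_pos
  exact hASP b (hb.of_le hk1) hb01 (hb1 0 (by simp)) fun x hx => hb0 x (by
    rw [sub_zero]; linarith)

/-- The upgrade. -/
theorem starAll_k.{u, v} (hONE : ST_ONE.{u}) (hA1 : ST_A1.{u, v}) (hA5 : ST_A5.{u}) {V : Type u}
    [NormedAddCommGroup V] [NormedSpace ℝ V] [TopologicalSpace.SeparableSpace V]
    [TopologicalSpace.SeparableSpace (StrongDual ℝ V)]
    {Γ : Type v} {k : WithTop ℕ∞} (hk : k ≤ ∞) (K : EK k V Γ) {C : ℝ} (hC : 1 < C) :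
    StarAll k V C := by
  obtain ⟨D, hD, hApp⟩ := hA1 hk K
  exact hA5 hk hD hApp (hONE V) C hC

/-- Restriction of an embedding to a subspace. -/
noncomputable def EK.restr {k : WithTop ℕ∞} {X Y Γ : Type*} [NormedAddCommGroup X]
    [NormedSpace ℝ X] [NormedAddCommGroup Y] [NormedSpace ℝ Y] (K : EK k X Γ) (T : Y →L[ℝ] X)
    (c : ℝ) (hc : 0 < c) (hT : ∀ y, c * ‖y‖ ≤ ‖T y‖) : EK k Y Γ where
  Φ := fun y γ => K.Φ (T y) γ
  isC0 := fun y => K.isC0 (T y)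
  smooth := fun γ => (K.smooth γ).comp T.contDiff
  L := K.L * (‖T‖ + 1)
  L0 := mul_pos K.L0 (by positivity)
  upper := fun x y γ => by
    refine (K.upper _ _ γ).trans ?_
    rw [← map_sub, mul_assoc]
    have h1 := T.le_opNorm (x - y)
    have h2 : 0 ≤ ‖x - y‖ := norm_nonneg _
    exact mul_le_mul_of_nonneg_left (by nlinarith) K.L0.le
  c := K.c * c
  c0 := mul_pos K.c0 hc
  lower := fun x y r hr h => by
    have h1 := K.lower (T x) (T y) r hr h
    rw [← map_sub] at h1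
    have h2 := hT (x - y)
    have h3 := K.c0
    calc K.c * c * ‖x - y‖ = K.c * (c * ‖x - y‖) := by ring
      _ ≤ K.c * ‖T (x - y)‖ := by gcongr
      _ ≤ r := h1

theorem sep_c0 {Z : Type*} [NormedAddCommGroup Z] [NormedSpace ℝ Z]
    [TopologicalSpace.SeparableSpace Z] : TopologicalSpace.SeparableSpace C₀(ℕ, Z) := by
  have h := rs_sep (Γ := ℕ) (Z := Z) (S := univ) (countable_univ)
  have h2 : Set.range (rs (Z := Z) (univ : Set ℕ)) = univ := by
    refine eq_univ_of_forall fun x => ⟨x, ?_⟩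
    ext n
    exact rs_mem x (mem_univ n)
  rw [h2] at h
  exact TopologicalSpace.isSeparable_univ_iff.1 h

/-- `c_0(ℕ; Z)` has `(*^k)` with all constants larger than `1`. -/
theorem starAll_c0.{u, v} (hONE : ST_ONE.{u}) (hA1 : ST_A1.{u, v}) (hA5 : ST_A5.{u})
    (hA6 : ST_A6.{u, v}) (hDC : ∀ (Z : Type u) [NormedAddCommGroup Z] [NormedSpace ℝ Z]
      [TopologicalSpace.SeparableSpace (StrongDual ℝ Z)],
      TopologicalSpace.SeparableSpace (StrongDual ℝ C₀(ℕ, Z))) {Z : Type u}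
    [NormedAddCommGroup Z] [NormedSpace ℝ Z] [TopologicalSpace.SeparableSpace Z]
    [TopologicalSpace.SeparableSpace (StrongDual ℝ Z)]
    {Γ : Type v} {k : WithTop ℕ∞} (hk : k ≤ ∞) (K : EK k Z Γ) {C : ℝ} (hC : 1 < C) :
    StarAll k C₀(ℕ, Z) C := by
  obtain ⟨K'⟩ := hA6 K
  haveI := hDC Z
  haveI : TopologicalSpace.SeparableSpace C₀(ℕ, Z) := sep_c0
  exact starAll_k hONE hA1 hA5 hk K' hC

/-- From constants larger than `1` to the constant `1`. -/
theorem star_of_all {Y : Type*} [NormedAddCommGroup Y] [NormedSpace ℝ Y] {k : ℕ∞} (hk : 1 ≤ k)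
    (h : ∀ C : ℝ≥0, 1 < C → ∀ (f : Y → ℝ) (L : ℝ≥0), LipschitzWith L f → ∀ ε : ℝ, 0 < ε →
      ∃ K : Y → ℝ, ContDiff ℝ k K ∧ LipschitzWith (C * L) K ∧ ∀ y, |f y - K y| < ε)
    (f : Y → ℝ) (L : ℝ≥0) (hf : LipschitzWith L f) (ε : ℝ) (hε : 0 < ε) :
    ∃ K : Y → ℝ, ContDiff ℝ k K ∧ LipschitzWith (1 * L) K ∧ ∀ y, |f y - K y| < ε := by
  have hk' : (k : WithTop ℕ∞) ≤ ∞ := by exact_mod_cast le_top
  have hk1 : (1 : WithTop ℕ∞) ≤ (k : WithTop ℕ∞) := by exact_mod_cast hk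
  have hf' : ∀ x y, |f x - f y| ≤ (L : ℝ) * ‖x - y‖ := fun x y => by
    have := hf.dist_le_mul x y
    rwa [Real.dist_eq, dist_eq_norm] at this
  obtain ⟨g, h1, h2, h3⟩ := star_const hk' hk1 (Cr := 1) zero_le_one
    (fun C₀ hC₀ g Λ hΛ hg ϵ hϵ => by
      have hg' : LipschitzWith ⟨Λ, hΛ⟩ g := LipschitzWith.of_dist_le_mul fun x y => by
        rw [Real.dist_eq, dist_eq_norm]; exact hg x y
      obtain ⟨K, k1, k2, k3⟩ := h ⟨C₀, zero_le_one.trans hC₀.le⟩ hC₀ g ⟨Λ, hΛ⟩ hg' ϵ hϵ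
      refine ⟨K, k1, fun x y => ?_, k3⟩
      have := k2.dist_le_mul x y
      rw [Real.dist_eq, dist_eq_norm, NNReal.coe_mul] at this
      rw [one_mul]
      exact this)
    L.2 hf' hε
  refine ⟨g, h1, LipschitzWith.of_dist_le_mul fun x y => ?_, h3⟩
  rw [Real.dist_eq, dist_eq_norm]
  exact h2 x y

/-- Subspaces of separable spaces of the class. -/
theorem sep_star.{u, v, z} (hONE : ST_ONE.{u}) (hA1 : ST_A1.{u, v}) (hA2 : ST_A2.{u})
    (hASP : ST_ASP.{u}) (hA5 : ST_A5.{u}) {Z : Type u}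
    [NormedAddCommGroup Z] [NormedSpace ℝ Z] [TopologicalSpace.SeparableSpace Z]
    (hZ : CompleteSpace Z ∨ TopologicalSpace.SeparableSpace (StrongDual ℝ Z))
    {Γ : Type v} {Y : Type z} [NormedAddCommGroup Y] [NormedSpace ℝ Y] (k : ℕ∞) (hk : 1 ≤ k)
    (K : EK (k : WithTop ℕ∞) Z Γ)
    (T : Y →L[ℝ] Z) (c' : ℝ) (hc' : 0 < c') (hT : ∀ y, c' * ‖y‖ ≤ ‖T y‖)
    (f : Y → ℝ) (L : ℝ≥0) (hf : LipschitzWith L f) (ε : ℝ) (hε : 0 < ε) :
    ∃ K : Y → ℝ, ContDiff ℝ k K ∧ LipschitzWith (1 * L) K ∧ ∀ y, |f y - K y| < ε := by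
  have hk' : (k : WithTop ℕ∞) ≤ ∞ := by exact_mod_cast le_top
  have hk1 : (1 : WithTop ℕ∞) ≤ (k : WithTop ℕ∞) := by exact_mod_cast hk
  haveI : TopologicalSpace.SeparableSpace (StrongDual ℝ Z) := by
    rcases hZ with h | h
    · exact dual_sep hA1 hA2 hASP hk' hk1 K
    · exact h
  refine star_of_all hk (fun C hC f L hf ε hε => ?_) f L hf ε hε
  have h1 : StarAll (k : WithTop ℕ∞) Z C := starAll_k hONE hA1 hA5 hk' K
    (C := (C : ℝ)) (by exact_mod_cast hC)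
  have h2 := StarAll.of_embedding h1 T hc' hT
  have hf' : ∀ x y, |f x - f y| ≤ (L : ℝ) * ‖x - y‖ := fun x y => by
    have := hf.dist_le_mul x y
    rwa [Real.dist_eq, dist_eq_norm] at this
  obtain ⟨K, k1, k2, k3⟩ := h2 (normSeminorm ℝ Y) 1 one_pos (fun w => by
    rw [one_mul]; exact le_rfl) (fun w => by rw [one_mul]; exact le_rfl) f L L.2 hf' ε hε
  refine ⟨K, k1, LipschitzWith.of_dist_le_mul fun x y => ?_, k3⟩
  rw [Real.dist_eq, dist_eq_norm, NNReal.coe_mul]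
  exact k2 x y

/-- Subspaces of `c_0(I; Z)`. -/
theorem c0_star.{u, v, w, z} (hONE : ST_ONE.{u}) (hA1 : ST_A1.{u, v}) (hA2 : ST_A2.{u})
    (hASP : ST_ASP.{u}) (hA5 : ST_A5.{u}) (hA6 : ST_A6.{u, v})
    (hA6' : ∀ {k : WithTop ℕ∞} {Z : Type u} [NormedAddCommGroup Z] [NormedSpace ℝ Z]
      {Γ : Type v} {I : Type w} [TopologicalSpace I] [DiscreteTopology I] (_ : EK k Z Γ),
      Nonempty (EK k C₀(I, Z) (I × Γ)))
    (hDC : ∀ (Z : Type u) [NormedAddCommGroup Z] [NormedSpace ℝ Z]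
      [TopologicalSpace.SeparableSpace (StrongDual ℝ Z)],
      TopologicalSpace.SeparableSpace (StrongDual ℝ C₀(ℕ, Z))) {Z : Type u}
    [NormedAddCommGroup Z] [NormedSpace ℝ Z] [TopologicalSpace.SeparableSpace Z]
    (hZ : CompleteSpace Z ∨ TopologicalSpace.SeparableSpace (StrongDual ℝ Z))
    {Γ : Type v} {I : Type w} [TopologicalSpace I] [DiscreteTopology I] {Y : Type z}
    [NormedAddCommGroup Y] [NormedSpace ℝ Y] (k : ℕ∞) (hk : 1 ≤ k) (K : EK (k : WithTop ℕ∞) Z Γ)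
    (T : Y →L[ℝ] C₀(I, Z)) (c' : ℝ) (hc' : 0 < c') (hT : ∀ y, c' * ‖y‖ ≤ ‖T y‖)
    (f : Y → ℝ) (L : ℝ≥0) (hf : LipschitzWith L f) (ε : ℝ) (hε : 0 < ε) :
    ∃ K : Y → ℝ, ContDiff ℝ k K ∧ LipschitzWith (1 * L) K ∧ ∀ y, |f y - K y| < ε := by
  have hk' : (k : WithTop ℕ∞) ≤ ∞ := by exact_mod_cast le_top
  have hk1 : (1 : WithTop ℕ∞) ≤ (k : WithTop ℕ∞) := by exact_mod_cast hk
  haveI : TopologicalSpace.SeparableSpace (StrongDual ℝ Z) := by
    rcases hZ with h | h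
    · exact dual_sep hA1 hA2 hASP hk' hk1 K
    · exact h
  obtain ⟨K'⟩ := hA6' (I := I) K
  refine star_of_all hk (fun C hC f L hf ε hε => ?_) f L hf ε hε
  have h1 : StarAll (k : WithTop ℕ∞) C₀(ℕ, Z) C := starAll_c0 hONE hA1 hA5 hA6 hDC hk' K
    (C := (C : ℝ)) (by exact_mod_cast hC)
  exact c0_conclusion k hk hC.le h1 (EK.restr K' T c' hc' hT) T c' hc' hT f L hf ε hε

/-- Subspaces of a Banach space of the class with a directed system with separable ranges. -/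
theorem sys_star.{u, v, w, z} (hONE : ST_ONE.{u}) (hA1 : ST_A1.{u, v}) (hA2 : ST_A2.{u})
    (hASP : ST_ASP.{u}) (hA5 : ST_A5.{u}) {X : Type u} {ι : Type w} {Γ : Type v} {Y : Type z}
    [NormedAddCommGroup X] [NormedSpace ℝ X] [CompleteSpace X]
    [NormedAddCommGroup Y] [NormedSpace ℝ Y] [Preorder ι] [IsDirectedOrder ι] [Nonempty ι]
    (k : ℕ∞) (hk : 1 ≤ k) (E : SPS X ι)
    (hsep : ∀ s, TopologicalSpace.IsSeparable (Set.range (E.P s)))
    (K : EK (k : WithTop ℕ∞) X Γ)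
    (T : Y →L[ℝ] X) (c' : ℝ) (hc' : 0 < c') (hT : ∀ y, c' * ‖y‖ ≤ ‖T y‖)
    (f : Y → ℝ) (L : ℝ≥0) (hf : LipschitzWith L f) (ε : ℝ) (hε : 0 < ε) :
    ∃ K : Y → ℝ, ContDiff ℝ k K ∧ LipschitzWith (1 * L) K ∧ ∀ y, |f y - K y| < ε := by
  have hk' : (k : WithTop ℕ∞) ≤ ∞ := by exact_mod_cast le_top
  have hk1 : (1 : WithTop ℕ∞) ≤ (k : WithTop ℕ∞) := by exact_mod_cast hk
  refine star_of_all hk (fun C hC f L hf ε hε => ?_) f L hf ε hε
  refine conclusion k hk E hC.le (fun s => ?_) (EK.restr K T c' hc' hT) T c' hc' hT f L hf ε hε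
  have hcl : IsClosed ((LinearMap.range (E.P s : X →ₗ[ℝ] X) : Submodule ℝ X) : Set X) := by
    have : ((LinearMap.range (E.P s : X →ₗ[ℝ] X) : Submodule ℝ X) : Set X) =
        {x | E.P s x = x} := by
      ext x
      constructor
      · rintro ⟨y, rfl⟩
        exact E.PP s s le_rfl y
      · intro hx
        exact ⟨x, hx⟩
    rw [this]
    exact isClosed_eq (E.P s).continuous continuous_id
  haveI : CompleteSpace (LinearMap.range (E.P s : X →ₗ[ℝ] X)) := hcl.completeSpace_coe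
  haveI : TopologicalSpace.SeparableSpace (LinearMap.range (E.P s : X →ₗ[ℝ] X)) :=
    (hsep s).separableSpace
  have K1 : EK (k : WithTop ℕ∞) (LinearMap.range (E.P s : X →ₗ[ℝ] X)) Γ :=
    EK.restr K (Submodule.subtypeL _) 1 one_pos fun y => by rw [one_mul]; exact le_rfl
  haveI : TopologicalSpace.SeparableSpace
      (StrongDual ℝ (LinearMap.range (E.P s : X →ₗ[ℝ] X))) := dual_sep hA1 hA2 hASP hk' hk1 K1
  exact starAll_k hONE hA1 hA5 hk' K1 (C := (C : ℝ)) (by exact_mod_cast hC)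

end Pool.Agent.Helper94.UP
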