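import Pool.Agent.Helper94.UP.Sheet

/-! Separable Banach spaces with a smooth bump have separable dual: the statements of the rows. -/

open scoped ContDiff NNReal
open Set Filter Topology

namespace Pool.Agent.Helper94.UP

/-- Row EKE: Ekeland's principle for a continuous function bounded below on a nonempty complete
metric space. (Choose `v_{n+1}` in `S_n = {w | ψ w + ε d(w, v_n) ≤ ψ (v_n)}` with
`ψ (v_{n+1}) ≤ inf_{S_n} ψ + 2^{-n}`; the sets `S_n` decrease, `(v_n)` is Cauchy, its limit `v`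
lies in all `S_n`, and a `w` with `ψ w + ε d(w, v) < ψ v` would lie in all `S_n`, contradiction.) -/
def ST_EKE.{u} : Prop := ∀ {S : Type u} [MetricSpace S] [CompleteSpace S] [Nonempty S]
  (ψ : S → ℝ), Continuous ψ → (∃ m : ℝ, ∀ w, m ≤ ψ w) → ∀ ε : ℝ, 0 < ε →
  ∃ v, ∀ w, ψ v ≤ ψ w + ε * dist w v

/-- Row ASD (from EKE): the derivatives of `1/b` are dense in the dual. For `g` in the dual let
`S = {x | β ≤ b x ∧ 1 ≤ b x * (1 + g x)}`, `β = 1/(1 + ‖g‖)`, a closed subset containing `0`; on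
`{b > 0}`, `ψ x = 1/b x - g x ≤ 1` holds exactly on `S` (as `b x ≠ 0` forces `‖x‖ ≤ 1`, so
`|g x| ≤ ‖g‖`). Ekeland on `S` for `ψ` gives `v ∈ S` with `ψ v ≤ ψ w + ε ‖w - v‖` for all `w` with
`b w > 0`; hence `‖fderiv ℝ (fun x => (b x)⁻¹) v - g‖ ≤ ε`. -/
def ST_ASD.{u} : Prop := ∀ {X : Type u} [NormedAddCommGroup X] [NormedSpace ℝ X]
  [CompleteSpace X] (b : X → ℝ), ContDiff ℝ 1 b → (∀ x, 0 ≤ b x ∧ b x ≤ 1) → b 0 = 1 →
  (∀ x, 1 ≤ ‖x‖ → b x = 0) → ∀ (g : StrongDual ℝ X) (ε : ℝ), 0 < ε → ∃ v : X, 0 < b v ∧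
  ‖fderiv ℝ (fun x => (b x)⁻¹) v - g‖ ≤ ε

/-- Row ASP (from ASD): the dual is separable. (`v ↦ fderiv ℝ (fun x => (b x)⁻¹) v` is continuous
on the open set `{b > 0}`, which is separable, and its range is dense.) -/
def ST_ASP.{u} : Prop := ∀ {X : Type u} [NormedAddCommGroup X] [NormedSpace ℝ X]
  [CompleteSpace X] [TopologicalSpace.SeparableSpace X] (b : X → ℝ), ContDiff ℝ 1 b →
  (∀ x, 0 ≤ b x ∧ b x ≤ 1) → b 0 = 1 → (∀ x, 1 ≤ ‖x‖ → b x = 0) →
  TopologicalSpace.SeparableSpace (StrongDual ℝ X)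

end Pool.Agent.Helper94.UP
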